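import Pool.Agent.H.MP_44257e_co.UC.L1

/-!
# Cauchy-Schwarz for a set of type (0, 2)

`E = 𝓑.card` lines meet `S0` in two points, `w = 𝓦.card` lines miss `S0`. For `q ∉ S0` let `β q` be
the number of members of `𝓑` through `q` and `γ q` the number of members of `𝓦` through `q`. Then
`∑ β γ = E w` (a line of `𝓑` and a line of `𝓦` meet in one point, not in `S0`);
`∑ γ^2 = (n + 1) w + w (w - 1) = w (w + n)`;
`∑ β^2 = ∑_{X, Y ∈ 𝓑} ((X ∩ Y) \ S0).card = (n - 1) E + E (E - 1) - ∑_{p ∈ S0} g_p (g_p - 1)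
= E^2 + n E - ∑_{p ∈ S0} g_p^2`, as `∑_{p ∈ S0} g_p = 2 E` (`g_p = dg p`, all lines through
`p ∈ S0` are in `𝓑`). So `(E w)^2 ≤ (E^2 + n E - S) w (w + n)`; divide by `w` (if `w = 0` the claim is
`0 ≤ n ∑ β^2`).
-/

set_option autoImplicit false

namespace MP44257e

variable {v n d : ℕ} {𝓛 : Finset (Finset (Fin v))}

private theorem D1_prod (P Q : Finset (Finset (Fin v))) :
    ∑ q, (((P.filter fun X => q ∈ X).card : ℤ)) * ((Q.filter fun X => q ∈ X).card : ℤ) =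
      ∑ X ∈ P, ∑ Y ∈ Q, ((X ∩ Y).card : ℤ) := by
  have h1 : ∀ q : Fin v, (((P.filter fun X => q ∈ X).card : ℤ)) *
      ((Q.filter fun X => q ∈ X).card : ℤ) =
      ∑ X ∈ P, ∑ Y ∈ Q, (if q ∈ X ∩ Y then (1 : ℤ) else 0) := by
    intro q
    rw [Finset.card_filter, Finset.card_filter]
    push_cast
    rw [Finset.sum_mul_sum]
    refine Finset.sum_congr rfl fun X _ => Finset.sum_congr rfl fun Y _ => ?_
    by_cases hX : q ∈ X
    · by_cases hY : q ∈ Y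
      · rw [if_pos hX, if_pos hY, if_pos (Finset.mem_inter.2 ⟨hX, hY⟩), one_mul]
      · rw [if_neg hY, if_neg (fun hh => hY (Finset.mem_inter.1 hh).2), mul_zero]
    · rw [if_neg hX, if_neg (fun hh => hX (Finset.mem_inter.1 hh).1), zero_mul]
  rw [Finset.sum_congr rfl fun q _ => h1 q, Finset.sum_comm]
  refine Finset.sum_congr rfl fun X _ => ?_
  rw [Finset.sum_comm]
  refine Finset.sum_congr rfl fun Y _ => ?_
  rw [Finset.sum_boole]
  congr 2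
  ext q
  simp

private theorem D1_self (h : Lin n d 𝓛) {P : Finset (Finset (Fin v))} (hP : P ⊆ 𝓛) :
    ∑ X ∈ P, ∑ Y ∈ P, ((X ∩ Y).card : ℤ) = (P.card : ℤ) * (P.card + n) := by
  have h1 : ∀ X ∈ P, ∑ Y ∈ P, ((X ∩ Y).card : ℤ) = P.card + n := by
    intro X hX
    rw [← Finset.add_sum_erase P _ hX, Finset.inter_self, h.2.1 X (hP hX)]
    have h2 : ∑ Y ∈ P.erase X, ((X ∩ Y).card : ℤ) = ∑ Y ∈ P.erase X, 1 :=
      Finset.sum_congr rfl fun Y hY => by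
        rw [h.2.2.1 X (hP hX) Y (hP (Finset.mem_of_mem_erase hY)) (Finset.ne_of_mem_erase hY).symm,
          Nat.cast_one]
    rw [h2, Finset.sum_const, nsmul_eq_mul, mul_one, Finset.card_erase_of_mem hX]
    have h3 : 1 ≤ P.card := Finset.card_pos.2 ⟨X, hX⟩
    push_cast [Nat.cast_sub h3]
    ring
  rw [Finset.sum_congr rfl h1, Finset.sum_const, nsmul_eq_mul]

theorem cs_lin (h : Lin n d 𝓛) {S0 : Finset (Fin v)}
    (hS : ∀ X ∈ 𝓛, (X ∩ S0).card = 0 ∨ (X ∩ S0).card = 2) :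
    (((𝓛.filter fun X => (X ∩ S0).card = 2).card : ℤ)) ^ 2 *
        ((𝓛.filter fun X => (X ∩ S0).card = 0).card : ℤ) ≤
      ((((𝓛.filter fun X => (X ∩ S0).card = 2).card : ℤ)) ^ 2 +
          n * ((𝓛.filter fun X => (X ∩ S0).card = 2).card : ℤ) -
          ∑ p ∈ S0, ((dg 𝓛 p : ℤ)) ^ 2) *
        (((𝓛.filter fun X => (X ∩ S0).card = 0).card : ℤ) + n) := by
  obtain ⟨B, hB⟩ : ∃ B, B = 𝓛.filter fun X => (X ∩ S0).card = 2 := ⟨_, rfl⟩
  obtain ⟨W, hW⟩ : ∃ W, W = 𝓛.filter fun X => (X ∩ S0).card = 0 := ⟨_, rfl⟩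
  rw [← hB, ← hW]
  have hBL : B ⊆ 𝓛 := by rw [hB]; exact Finset.filter_subset _ _
  have hWL : W ⊆ 𝓛 := by rw [hW]; exact Finset.filter_subset _ _
  have hBm : ∀ X, X ∈ B ↔ X ∈ 𝓛 ∧ (X ∩ S0).card = 2 := fun X => by rw [hB, Finset.mem_filter]
  have hWm : ∀ X, X ∈ W ↔ X ∈ 𝓛 ∧ (X ∩ S0).card = 0 := fun X => by rw [hW, Finset.mem_filter]
  obtain ⟨β, hβ⟩ : ∃ β : Fin v → ℤ, β = fun q => ((B.filter fun X => q ∈ X).card : ℤ) := ⟨_, rfl⟩
  obtain ⟨γ, hγ⟩ : ∃ γ : Fin v → ℤ, γ = fun q => ((W.filter fun X => q ∈ X).card : ℤ) := ⟨_, rfl⟩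
  have hγ0 : ∀ q ∈ S0, γ q = 0 := by
    intro q hq
    rw [hγ]
    show ((W.filter fun X => q ∈ X).card : ℤ) = 0
    rw [Finset.filter_eq_empty_iff.2, Finset.card_empty, Nat.cast_zero]
    intro X hX hqX
    have h1 := ((hWm X).1 hX).2
    rw [Finset.card_eq_zero] at h1
    have h2 : q ∈ X ∩ S0 := Finset.mem_inter.2 ⟨hqX, hq⟩
    rw [h1] at h2
    exact absurd h2 (Finset.notMem_empty q)
  have hβ0 : ∀ q ∈ S0, β q = dg 𝓛 q := by
    intro q hq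
    rw [hβ]
    show ((B.filter fun X => q ∈ X).card : ℤ) = dg 𝓛 q
    unfold dg
    congr 2
    ext X
    rw [Finset.mem_filter, Finset.mem_filter, hBm]
    constructor
    · rintro ⟨⟨h1, -⟩, h2⟩
      exact ⟨h1, h2⟩
    · rintro ⟨h1, h2⟩
      refine ⟨⟨h1, ?_⟩, h2⟩
      rcases hS X h1 with h3 | h3
      · rw [Finset.card_eq_zero] at h3
        have h4 : q ∈ X ∩ S0 := Finset.mem_inter.2 ⟨h2, hq⟩
        rw [h3] at h4
        exact absurd h4 (Finset.notMem_empty q)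
      · exact h3
  -- the three sums
  have s1 : ∑ q ∈ S0ᶜ, β q * γ q = (B.card : ℤ) * W.card := by
    have h1 : ∑ q ∈ S0ᶜ, β q * γ q = ∑ q, β q * γ q := by
      rw [← Finset.sum_add_sum_compl S0 (fun q => β q * γ q),
        Finset.sum_eq_zero (s := S0) (fun q hq => by rw [hγ0 q hq, mul_zero]), zero_add]
    rw [h1, hβ, hγ]
    show ∑ q, (((B.filter fun X => q ∈ X).card : ℤ)) * ((W.filter fun X => q ∈ X).card : ℤ) = _
    rw [D1_prod]
    have h2 : ∀ X ∈ B, ∑ Y ∈ W, ((X ∩ Y).card : ℤ) = W.card := by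
      intro X hX
      rw [Finset.sum_congr rfl (g := fun _ => (1 : ℤ)), Finset.sum_const, nsmul_eq_mul, mul_one]
      intro Y hY
      rw [h.2.2.1 X (hBL hX) Y (hWL hY) ?_, Nat.cast_one]
      rintro rfl
      have h3 := ((hBm X).1 hX).2
      have h4 := ((hWm X).1 hY).2
      omega
    rw [Finset.sum_congr rfl h2, Finset.sum_const, nsmul_eq_mul]
  have s2 : ∑ q ∈ S0ᶜ, γ q ^ 2 = (W.card : ℤ) * (W.card + n) := by
    have h1 : ∑ q ∈ S0ᶜ, γ q ^ 2 = ∑ q, γ q * γ q := by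
      rw [← Finset.sum_add_sum_compl S0 (fun q => γ q * γ q),
        Finset.sum_eq_zero (s := S0) (fun q hq => by rw [hγ0 q hq, mul_zero]), zero_add]
      exact Finset.sum_congr rfl fun q _ => by ring
    rw [h1, hγ]
    show ∑ q, (((W.filter fun X => q ∈ X).card : ℤ)) * ((W.filter fun X => q ∈ X).card : ℤ) = _
    rw [D1_prod, D1_self h hWL]
  have s3 : ∑ q ∈ S0ᶜ, β q ^ 2 =
      (B.card : ℤ) ^ 2 + n * B.card - ∑ p ∈ S0, ((dg 𝓛 p : ℤ)) ^ 2 := by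
    have h1 : ∑ q ∈ S0, β q ^ 2 + ∑ q ∈ S0ᶜ, β q ^ 2 = ∑ q, β q * β q := by
      rw [Finset.sum_add_sum_compl S0 (fun q => β q ^ 2)]
      exact Finset.sum_congr rfl fun q _ => by ring
    have h2 : ∑ q, β q * β q = (B.card : ℤ) * (B.card + n) := by
      rw [hβ]
      show ∑ q, (((B.filter fun X => q ∈ X).card : ℤ)) * ((B.filter fun X => q ∈ X).card : ℤ) = _
      rw [D1_prod, D1_self h hBL]
    have h3 : ∑ q ∈ S0, β q ^ 2 = ∑ p ∈ S0, ((dg 𝓛 p : ℤ)) ^ 2 :=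
      Finset.sum_congr rfl fun q hq => by rw [hβ0 q hq]
    rw [h2, h3] at h1
    linear_combination h1
  have hcs := Finset.sum_mul_sq_le_sq_mul_sq S0ᶜ β γ
  rw [s1, s2, s3] at hcs
  have hn0 : (0 : ℤ) ≤ n := Int.natCast_nonneg n
  have hw0 : (0 : ℤ) ≤ W.card := Int.natCast_nonneg _
  have h3n : (0 : ℤ) ≤ (B.card : ℤ) ^ 2 + n * B.card - ∑ p ∈ S0, ((dg 𝓛 p : ℤ)) ^ 2 := by
    rw [← s3]
    exact Finset.sum_nonneg fun q _ => sq_nonneg _
  rcases hw0.eq_or_lt with hw | hw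
  · rw [← hw, mul_zero, zero_add]
    exact mul_nonneg h3n hn0
  · refine le_of_mul_le_mul_right ?_ hw
    calc (B.card : ℤ) ^ 2 * W.card * W.card = ((B.card : ℤ) * W.card) ^ 2 := by ring
      _ ≤ _ := hcs
      _ = _ := by ring

end MP44257e
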