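import Pool.Agent.H.MP_44257e_co.UC.L1

/-!
# Facts on a set of type (0, 2)

`E` is the number of the lines that meet `S0` (in two points).
`dg_lt`: each of the `dg p` lines through `p` has another point of `S0`, different ones for different
lines. `sum_dg_two`: `sum_dg_set`. `two_ge`: `sum_dg` gives `d + 4 ≥ 21` for the five points of
`X`; the three points outside `S0` give at most 15. `sum_sq_ge`: `∑_{p ∈ S0} g_p^2 =
∑_{X meets S0} ∑_{q ∈ X ∩ S0} g_q` and `two_ge`. `cauchy`: Cauchy-Schwarz for `∑ g_p = 2 E` with at most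
five terms (`sq_sum_le_card_mul_sum_sq`).
-/

set_option autoImplicit false

namespace MP44257e

variable {v n d : ℕ} {𝓛 : Finset (Finset (Fin v))} {S0 : Finset (Fin v)}

private theorem D2_union (h : Lin n d 𝓛)
    (hS : ∀ X ∈ 𝓛, (X ∩ S0).card = 0 ∨ (X ∩ S0).card = 2) {p : Fin v} (hp : p ∈ S0) :
    ((𝓛.filter fun X => p ∈ X).biUnion fun X => (X ∩ S0).erase p).card = dg 𝓛 p ∧
      ((𝓛.filter fun X => p ∈ X).biUnion fun X => (X ∩ S0).erase p) ⊆ S0.erase p := by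
  constructor
  · rw [Finset.card_biUnion]
    · unfold dg
      rw [Finset.card_eq_sum_ones (𝓛.filter fun X => p ∈ X)]
      refine Finset.sum_congr rfl fun X hX => ?_
      rw [Finset.mem_filter] at hX
      have hpX : p ∈ X ∩ S0 := Finset.mem_inter.2 ⟨hX.2, hp⟩
      rw [Finset.card_erase_of_mem hpX]
      have h1 : 0 < (X ∩ S0).card := Finset.card_pos.2 ⟨p, hpX⟩
      rcases hS X hX.1 with h2 | h2
      · omega
      · omega
    · intro X hX Y hY hne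
      have hX' := Finset.mem_filter.1 hX
      have hY' := Finset.mem_filter.1 hY
      refine Finset.disjoint_left.2 ?_
      intro q hq hq'
      rw [Finset.mem_erase, Finset.mem_inter] at hq hq'
      have h1 := h.2.2.1 X hX'.1 Y hY'.1 hne
      have h2 : ({p, q} : Finset (Fin v)) ⊆ X ∩ Y := by
        intro a ha
        simp only [Finset.mem_insert, Finset.mem_singleton] at ha
        rcases ha with rfl | rfl
        · exact Finset.mem_inter.2 ⟨hX'.2, hY'.2⟩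
        · exact Finset.mem_inter.2 ⟨hq.2.1, hq'.2.1⟩
      have h3 := Finset.card_le_card h2
      rw [Finset.card_pair (Ne.symm hq.1), h1] at h3
      omega
  · intro q hq
    rw [Finset.mem_biUnion] at hq
    obtain ⟨X, -, hq⟩ := hq
    rw [Finset.mem_erase, Finset.mem_inter] at hq
    exact Finset.mem_erase.2 ⟨hq.1, hq.2.2⟩

theorem dg_lt (h : Lin n d 𝓛) (hS : ∀ X ∈ 𝓛, (X ∩ S0).card = 0 ∨ (X ∩ S0).card = 2)
    {p : Fin v} (hp : p ∈ S0) : dg 𝓛 p + 1 ≤ S0.card := by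
  obtain ⟨h1, h2⟩ := D2_union h hS hp
  have h3 := Finset.card_le_card h2
  rw [h1, Finset.card_erase_of_mem hp] at h3
  have h4 : 0 < S0.card := Finset.card_pos.2 ⟨p, hp⟩
  omega

/-- If `dg p + 1 = S0.card`, then `p` is on a line with every other point of `S0`. -/
theorem joined (h : Lin n d 𝓛) (hS : ∀ X ∈ 𝓛, (X ∩ S0).card = 0 ∨ (X ∩ S0).card = 2)
    {p : Fin v} (hp : p ∈ S0) (hd : dg 𝓛 p + 1 = S0.card) {q : Fin v} (hq : q ∈ S0) (hqp : q ≠ p) :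
    ∃ X ∈ 𝓛, p ∈ X ∧ q ∈ X := by
  obtain ⟨h1, h2⟩ := D2_union h hS hp
  have h4 : 0 < S0.card := Finset.card_pos.2 ⟨p, hp⟩
  have h3 := Finset.eq_of_subset_of_card_le h2 (by
    rw [h1, Finset.card_erase_of_mem hp]
    omega)
  have h5 : q ∈ S0.erase p := Finset.mem_erase.2 ⟨hqp, hq⟩
  rw [← h3, Finset.mem_biUnion] at h5
  obtain ⟨X, hX, hqX⟩ := h5
  rw [Finset.mem_filter] at hX
  rw [Finset.mem_erase, Finset.mem_inter] at hqX
  exact ⟨X, hX.1, hX.2, hqX.2.1⟩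

theorem sum_dg_two (h : Lin n d 𝓛)
    (hS : ∀ X ∈ 𝓛, (X ∩ S0).card = 0 ∨ (X ∩ S0).card = 2) :
    ∑ p ∈ S0, dg 𝓛 p = 2 * (𝓛.filter fun X => (X ∩ S0).card = 2).card := by
  rw [sum_dg_set h, Finset.card_filter, Finset.mul_sum]
  refine Finset.sum_congr rfl fun X hX => ?_
  rcases hS X hX with h2 | h2
  · rw [h2, if_neg (by norm_num), mul_zero]
  · rw [h2, if_pos rfl, mul_one]

theorem two_ge (h : Lin 4 d 𝓛) (hd : 17 ≤ d) {X : Finset (Fin v)} (hX : X ∈ 𝓛)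
    (h2 : (X ∩ S0).card = 2) : 6 ≤ ∑ q ∈ X ∩ S0, dg 𝓛 q := by
  have h3 := sum_dg h hX
  rw [← Finset.sum_inter_add_sum_sdiff X S0] at h3
  have h4 : (X \ S0).card = 3 := by
    have h5 := Finset.card_inter_add_card_sdiff X S0
    rw [h2, h.2.1 X hX] at h5
    omega
  have h6 : ∑ q ∈ X \ S0, dg 𝓛 q ≤ ∑ q ∈ X \ S0, 5 :=
    Finset.sum_le_sum fun q _ => h.2.2.2 q
  rw [Finset.sum_const, h4, smul_eq_mul] at h6
  omega

theorem sum_sq_eq (hS : ∀ X ∈ 𝓛, (X ∩ S0).card = 0 ∨ (X ∩ S0).card = 2) :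
    ∑ p ∈ S0, (dg 𝓛 p) ^ 2 =
      ∑ X ∈ 𝓛.filter (fun X => (X ∩ S0).card = 2), ∑ q ∈ X ∩ S0, dg 𝓛 q := by
  have h1 : ∀ p ∈ S0, (dg 𝓛 p) ^ 2 = ∑ X ∈ 𝓛, if p ∈ X then dg 𝓛 p else 0 := by
    intro p _
    rw [← Finset.sum_filter, Finset.sum_const, smul_eq_mul, sq]
    rfl
  rw [Finset.sum_congr rfl h1, Finset.sum_comm]
  have h2 : ∀ X ∈ 𝓛, ∑ p ∈ S0, (if p ∈ X then dg 𝓛 p else 0) = ∑ q ∈ X ∩ S0, dg 𝓛 q := by
    intro X _
    rw [← Finset.sum_filter]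
    refine Finset.sum_congr ?_ fun _ _ => rfl
    ext p
    rw [Finset.mem_filter, Finset.mem_inter, and_comm]
  rw [Finset.sum_congr rfl h2]
  symm
  refine Finset.sum_filter_of_ne fun X hX hne => ?_
  rcases hS X hX with h3 | h3
  · rw [Finset.card_eq_zero] at h3
    rw [h3, Finset.sum_empty] at hne
    exact absurd rfl hne
  · exact h3

theorem cauchy (h : Lin n d 𝓛) (hS : ∀ X ∈ 𝓛, (X ∩ S0).card = 0 ∨ (X ∩ S0).card = 2)
    (h5 : S0.card ≤ 5) :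
    4 * (𝓛.filter fun X => (X ∩ S0).card = 2).card ^ 2 ≤ 5 * ∑ p ∈ S0, (dg 𝓛 p) ^ 2 := by
  have h1 := sum_dg_two h hS
  have h2 := sq_sum_le_card_mul_sum_sq (s := S0) (f := fun p => dg 𝓛 p)
  rw [h1] at h2
  have h3 := Nat.mul_le_mul_right (∑ p ∈ S0, (dg 𝓛 p) ^ 2) h5
  calc 4 * (𝓛.filter fun X => (X ∩ S0).card = 2).card ^ 2
      = (2 * (𝓛.filter fun X => (X ∩ S0).card = 2).card) ^ 2 := by ring
    _ ≤ _ := h2
    _ ≤ _ := h3

end MP44257e
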