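import Pool.Agent.H.MP_44257e_co.UD.D2

/-!
# The case of seven lines that meet `S0`

By `sum_sq_eq` and `two_ge` the sum of squares is at least 42. Suppose it is 42; then every line `X`
that meets `S0` has `∑_{q ∈ X ∩ S0} g_q = 6` (equality in a sum of terms `≥ 6`), and
`∑_{p ∈ S0} g_p = 14` (`sum_dg_two`). `g_p ≤ 4` (`dg_lt`). If some `g_p = 4`: then `S0.card = 5`, every
other `q ∈ S0` is on a line with `p` (`joined`), so `g_q = 2`, and the sum is `4 + 4 * 2 = 12`. Else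
all `g_p ≤ 3`, and `p ∈ S0` is on a line `X` (`1 ≤ g_p`) with another point `q ∈ S0`, `g_p + g_q = 6`,
so `g_p = 3`: the sum is `3 * S0.card ≠ 14`.
-/

set_option autoImplicit false

namespace MP44257e

variable {v d : ℕ} {𝓛 : Finset (Finset (Fin v))} {S0 : Finset (Fin v)}

theorem seven (h : Lin 4 d 𝓛) (hd : 17 ≤ d)
    (hS : ∀ X ∈ 𝓛, (X ∩ S0).card = 0 ∨ (X ∩ S0).card = 2) (h5 : S0.card ≤ 5)
    (h1 : ∀ p ∈ S0, 1 ≤ dg 𝓛 p) (hE : (𝓛.filter fun X => (X ∩ S0).card = 2).card = 7) :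
    43 ≤ ∑ p ∈ S0, (dg 𝓛 p) ^ 2 := by
  by_contra hcon
  rw [not_le, sum_sq_eq hS] at hcon
  have hge : ∀ X ∈ 𝓛.filter (fun X => (X ∩ S0).card = 2), 6 ≤ ∑ q ∈ X ∩ S0, dg 𝓛 q := by
    intro X hX
    rw [Finset.mem_filter] at hX
    exact two_ge h hd hX.1 hX.2
  have h42 : ∑ X ∈ 𝓛.filter (fun X => (X ∩ S0).card = 2), 6 = 42 := by
    rw [Finset.sum_const, hE]; rfl
  have hle := Finset.sum_le_sum hge
  have heq : ∑ X ∈ 𝓛.filter (fun X => (X ∩ S0).card = 2), 6 =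
      ∑ X ∈ 𝓛.filter (fun X => (X ∩ S0).card = 2), ∑ q ∈ X ∩ S0, dg 𝓛 q := by
    omega
  have hall := (Finset.sum_eq_sum_iff_of_le hge).1 heq
  have hcard : ∀ X ∈ 𝓛, ∀ p ∈ X, p ∈ S0 → (X ∩ S0).card = 2 := by
    intro X hX p hp hpS
    rcases hS X hX with h0 | h2
    · exact absurd (Finset.mem_inter.2 ⟨hp, hpS⟩) (by rw [Finset.card_eq_zero.1 h0]; simp)
    · exact h2
  have key : ∀ X ∈ 𝓛, ∀ p ∈ X, p ∈ S0 → ∀ q ∈ X, q ∈ S0 → q ≠ p → dg 𝓛 p + dg 𝓛 q = 6 := by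
    intro X hX p hp hpS q hq hqS hne
    have h2 := hcard X hX p hp hpS
    have h3 : ({p, q} : Finset (Fin v)) = X ∩ S0 := by
      refine Finset.eq_of_subset_of_card_le ?_ ?_
      · intro a ha
        rw [Finset.mem_insert, Finset.mem_singleton] at ha
        rcases ha with rfl | rfl
        · exact Finset.mem_inter.2 ⟨hp, hpS⟩
        · exact Finset.mem_inter.2 ⟨hq, hqS⟩
      · rw [h2, Finset.card_pair hne.symm]
    have h4 := hall X (Finset.mem_filter.2 ⟨hX, h2⟩)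
    rw [← h3, Finset.sum_pair hne.symm] at h4
    exact h4.symm
  have ex : ∀ p ∈ S0, ∃ q ∈ S0, q ≠ p ∧ dg 𝓛 p + dg 𝓛 q = 6 := by
    intro p hp
    have h2 : 0 < (𝓛.filter fun X => p ∈ X).card := h1 p hp
    obtain ⟨X, hX⟩ := Finset.card_pos.1 h2
    rw [Finset.mem_filter] at hX
    have h3 := hcard X hX.1 p hX.2 hp
    obtain ⟨q, hq, hne⟩ := Finset.exists_mem_ne (by omega : 1 < (X ∩ S0).card) p
    rw [Finset.mem_inter] at hq
    exact ⟨q, hq.2, hne, key X hX.1 p hX.2 hp q hq.1 hq.2 hne⟩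
  have hsum := sum_dg_two h hS
  rw [hE] at hsum
  have hlt : ∀ p ∈ S0, dg 𝓛 p + 1 ≤ S0.card := fun p hp => dg_lt h hS hp
  by_cases h4 : ∃ p ∈ S0, dg 𝓛 p = 4
  · obtain ⟨p, hp, hp4⟩ := h4
    have h6 := hlt p hp
    have h7 : dg 𝓛 p + 1 = S0.card := by omega
    have h8 : ∀ q ∈ S0.erase p, dg 𝓛 q = 2 := by
      intro q hq
      rw [Finset.mem_erase] at hq
      obtain ⟨X, hX, hpX, hqX⟩ := joined h hS hp h7 hq.2 hq.1
      have h9 := key X hX p hpX hp q hqX hq.2 hq.1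
      omega
    rw [← Finset.add_sum_erase S0 _ hp, Finset.sum_congr rfl h8, Finset.sum_const,
      Finset.card_erase_of_mem hp, smul_eq_mul] at hsum
    omega
  · have h8 : ∀ p ∈ S0, dg 𝓛 p = 3 := by
      intro p hp
      have hp3 : dg 𝓛 p ≤ 3 := by
        have h9 := hlt p hp
        have h10 : dg 𝓛 p ≠ 4 := fun hh => h4 ⟨p, hp, hh⟩
        omega
      obtain ⟨q, hq, -, hpq⟩ := ex p hp
      have hq3 : dg 𝓛 q ≤ 3 := by
        have h9 := hlt q hq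
        have h10 : dg 𝓛 q ≠ 4 := fun hh => h4 ⟨q, hq, hh⟩
        omega
      omega
    rw [Finset.sum_congr rfl h8, Finset.sum_const, smul_eq_mul] at hsum
    omega

end MP44257e
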