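import Pool.Agent.H.MP_44257e_co.UD.D1
import Pool.Agent.H.MP_44257e_co.UD.D3

/-!
# No small set of type (0, 2) for at least 17 lines of order 4

Let `E`, `w` be the numbers of the lines that meet (miss) `S0`, `E + w = d ≥ 17`, and
`S = ∑ g_p^2`. `E ≤ 10` (`2 E = ∑ g_p ≤ 5 * 4` by `dg_lt`), `1 ≤ E` (a point of `S0` is on a line).
`6 E ≤ S` (`sum_sq_eq`, `two_ge`), `4 E^2 ≤ 5 S` (`cauchy`). `cs_lin` for `n = 4`:
`E^2 w ≤ (E^2 + 4 E - S)(w + 4)`, i.e. `(S - 4 E) w ≤ 4 (E^2 + 4 E - S)`; as `S - 4 E ≥ 0` and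
`w ≥ 17 - E`: `(S - 4 E)(17 - E) ≤ 4 (E^2 + 4 E - S)`, i.e. `S (21 - E) ≤ 84 E`. For
`E ≤ 6` this contradicts `6 E ≤ S`, for `E = 7` it contradicts `seven` (`43 * 14 = 602 > 588`), for
`E = 8, 9, 10` it contradicts `cauchy` (`S ≥ 52, 65, 80`).
-/

set_option autoImplicit false

namespace MP44257e

variable {v d : ℕ} {𝓛 : Finset (Finset (Fin v))} {S0 : Finset (Fin v)}

theorem cs4_contra (h : Lin 4 d 𝓛) (hd : 17 ≤ d)
    (hS : ∀ X ∈ 𝓛, (X ∩ S0).card = 0 ∨ (X ∩ S0).card = 2) (h5 : S0.card ≤ 5)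
    (h0 : S0.Nonempty) (h1 : ∀ p ∈ S0, 1 ≤ dg 𝓛 p) : False := by
  have hcs := cs_lin h hS
  have hca := cauchy h hS h5
  have hsq := sum_sq_eq hS
  have hsum := sum_dg_two h hS
  have hsev := seven h hd hS h5 h1
  have hle : ∑ p ∈ S0, dg 𝓛 p ≤ 20 := by
    calc ∑ p ∈ S0, dg 𝓛 p ≤ ∑ _p ∈ S0, 4 := by
          refine Finset.sum_le_sum fun p hp => ?_
          have := dg_lt h hS hp
          omega
      _ = S0.card * 4 := by rw [Finset.sum_const, smul_eq_mul]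
      _ ≤ 20 := by omega
  have h6 : 6 * (𝓛.filter fun X => (X ∩ S0).card = 2).card ≤ ∑ p ∈ S0, (dg 𝓛 p) ^ 2 := by
    rw [hsq]
    calc 6 * (𝓛.filter fun X => (X ∩ S0).card = 2).card =
          ∑ _X ∈ 𝓛.filter (fun X => (X ∩ S0).card = 2), 6 := by
          rw [Finset.sum_const, smul_eq_mul, mul_comm]
      _ ≤ _ := by
          refine Finset.sum_le_sum fun X hX => ?_
          rw [Finset.mem_filter] at hX
          exact two_ge h hd hX.1 hX.2
  have hE1 : 1 ≤ (𝓛.filter fun X => (X ∩ S0).card = 2).card := by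
    obtain ⟨p, hp⟩ := h0
    have h2 := h1 p hp
    obtain ⟨X, hX⟩ := Finset.card_pos.1 (show 0 < (𝓛.filter fun X => p ∈ X).card from h2)
    rw [Finset.mem_filter] at hX
    refine Finset.card_pos.2 ⟨X, Finset.mem_filter.2 ⟨hX.1, ?_⟩⟩
    rcases hS X hX.1 with h3 | h3
    · rw [Finset.card_eq_zero] at h3
      have h4 : p ∈ X ∩ S0 := Finset.mem_inter.2 ⟨hX.2, hp⟩
      rw [h3] at h4
      exact absurd h4 (Finset.notMem_empty p)
    · exact h3
  have hEw : (𝓛.filter fun X => (X ∩ S0).card = 2).card +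
      (𝓛.filter fun X => (X ∩ S0).card = 0).card = d := by
    rw [← h.1, ← Finset.card_filter_add_card_filter_not (s := 𝓛)
      (fun X => (X ∩ S0).card = 2)]
    congr 2
    refine Finset.filter_congr fun X hX => ?_
    rcases hS X hX with h3 | h3 <;> omega
  have hc : ((∑ p ∈ S0, (dg 𝓛 p) ^ 2 : ℕ) : ℤ) = ∑ p ∈ S0, ((dg 𝓛 p : ℤ)) ^ 2 := by
    push_cast
    rfl
  rw [← hc] at hcs
  generalize (𝓛.filter fun X => (X ∩ S0).card = 2).card = E at *
  generalize (𝓛.filter fun X => (X ∩ S0).card = 0).card = w at *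
  generalize ∑ p ∈ S0, (dg 𝓛 p) ^ 2 = Q at *
  have hE10 : E ≤ 10 := by omega
  have h7 : ((Q : ℤ) - 4 * E) * w ≤ 4 * ((E : ℤ) ^ 2 + 4 * E - Q) := by
    push_cast at hcs
    nlinarith [hcs]
  have h8 : (0 : ℤ) ≤ (Q : ℤ) - 4 * E := by
    have : (6 * E : ℕ) ≤ Q := h6
    omega
  have h9 : (17 : ℤ) - E ≤ w := by omega
  have h10 : ((Q : ℤ) - 4 * E) * (17 - E) ≤ 4 * ((E : ℤ) ^ 2 + 4 * E - Q) :=
    (mul_le_mul_of_nonneg_left h9 h8).trans h7
  clear hcs h7 hsum hle hsq hc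
  interval_cases E <;> push_cast at * <;> first | omega | (have := hsev trivial; omega)

end MP44257e
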