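import Pool.Agent.H.MP_44257e_co.UC.L5
import Pool.Agent.H.MP_44257e_co.UD.D4

/-!
# The structure of a non-sunflower pair of degree at least 17, `k = 7`

If `y ∈ B`, clear (`mem_Yu`). Else let `𝓛` be the image family of `lin_of_thr` (`n = 4`) and
`S0 = (B.erase x) ∩ Yu A x y`. For `X ∈ thr A x y`: `X ≠ B`, `x ∈ X ∩ B`, so `(X ∩ B).card` is 1 or
3, and `((X \ {x, y}) ∩ S0).card` is 0 or 2. `p ∈ S0`. Points of `S0` are on a member of `𝓛`. By
`cs4_contra` `6 ≤ S0.card`, and `(B.erase x).card = 6`, so `B.erase x ⊆ Yu A x y`.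
-/

set_option autoImplicit false

namespace MP44257e

variable {v : ℕ} {A : Finset (Finset (Fin v))} {x y : Fin v}

theorem closed4 (hA : IsFam [0, 1, 3] 7 A) (hxy : x ≠ y) (h : ¬ Sun A x y)
    (hl : 17 ≤ (thr A x y).card) {B : Finset (Fin v)} (hB : B ∈ A) (hx : x ∈ B) {p : Fin v}
    (hp : p ∈ B) (hpx : p ≠ x) (hpY : p ∈ Yu A x y) : B ⊆ Yu A x y := by
  by_cases hyB : y ∈ B
  · intro q hq
    exact mem_Yu.2 ⟨B, hB, hx, hyB, hq⟩
  by_contra hcon
  have h2 := lin_of_thr (n := 4) hA hxy h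
  have hxY : x ∈ Yu A x y := by
    obtain ⟨X, h3, h4, h5, -⟩ := mem_Yu.1 hpY
    exact mem_Yu.2 ⟨X, h3, h4, h5, h4⟩
  refine cs4_contra (S0 := (B.erase x) ∩ Yu A x y) h2 hl ?_ ?_ ?_ ?_
  · intro Z hZ
    obtain ⟨X, hX, rfl⟩ := Finset.mem_image.1 hZ
    obtain ⟨h3, h4, h5⟩ := mem_thr.1 hX
    have hne : X ≠ B := fun e => hyB (e ▸ h5)
    have h6 : (X.erase x).erase y ∩ (B.erase x ∩ Yu A x y) = (X ∩ B).erase x := by
      ext q
      simp only [Finset.mem_inter, Finset.mem_erase]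
      constructor
      · rintro ⟨⟨-, k1, k2⟩, ⟨-, k3⟩, -⟩
        exact ⟨k1, k2, k3⟩
      · rintro ⟨k1, k2, k3⟩
        refine ⟨⟨?_, k1, k2⟩, ⟨k1, k3⟩, mem_Yu.2 ⟨X, h3, h4, h5, k2⟩⟩
        rintro rfl
        exact hyB k3
    have h7 := hA.2 X h3 B hB hne
    simp only [List.mem_cons, List.not_mem_nil, or_false] at h7
    have h8 : x ∈ X ∩ B := Finset.mem_inter.2 ⟨h4, hx⟩
    have h9 : 0 < (X ∩ B).card := Finset.card_pos.2 ⟨x, h8⟩
    have h10 := Finset.card_erase_of_mem h8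
    show ((X.erase x).erase y ∩ (B.erase x ∩ Yu A x y)).card = 0 ∨
      ((X.erase x).erase y ∩ (B.erase x ∩ Yu A x y)).card = 2
    rw [h6, h10]
    omega
  · by_contra h6
    apply hcon
    have h7 : (B.erase x).card = 6 := by
      rw [Finset.card_erase_of_mem hx, hA.1 B hB]
    have h8 : (B.erase x) ∩ Yu A x y = B.erase x :=
      Finset.eq_of_subset_of_card_le Finset.inter_subset_left (by omega)
    intro q hq
    by_cases hqx : q = x
    · rw [hqx]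
      exact hxY
    · have h9 : q ∈ (B.erase x) ∩ Yu A x y := by
        rw [h8]
        exact Finset.mem_erase.2 ⟨hqx, hq⟩
      exact (Finset.mem_inter.1 h9).2
  · exact ⟨p, Finset.mem_inter.2 ⟨Finset.mem_erase.2 ⟨hpx, hp⟩, hpY⟩⟩
  · intro q hq
    obtain ⟨h3, h4⟩ := Finset.mem_inter.1 hq
    obtain ⟨h5, h6⟩ := Finset.mem_erase.1 h3
    obtain ⟨X, k1, k2, k3, k4⟩ := mem_Yu.1 h4
    unfold dg
    refine Finset.card_pos.2 ⟨(X.erase x).erase y, Finset.mem_filter.2 ⟨?_, ?_⟩⟩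
    · exact Finset.mem_image.2 ⟨X, mem_thr.2 ⟨k1, k2, k3⟩, rfl⟩
    · refine Finset.mem_erase.2 ⟨?_, Finset.mem_erase.2 ⟨h5, k4⟩⟩
      rintro rfl
      exact hyB h6

end MP44257e
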