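import Pool.Agent.H.MP_44257e_co.UB.S1
import Pool.Agent.H.MP_44257e_co.UD.D5

/-!
# The components at a point `x`, `k = 7`, threshold 17

Copies of `UB/C1.lean` and `UB/C2.lean` (done) with `n = 4`, `closed4` in place of `closed`, the
threshold `17 = 4 ^ 2 + 1` (`card_Yu_eq` gives `(Yu A x y).card = 23`).
-/

set_option autoImplicit false

namespace MP44257e

/-- The pair `x, y` is bad: not a sunflower and of degree at least 17. -/
def Bad4 {v : ℕ} (A : Finset (Finset (Fin v))) (x y : Fin v) : Prop :=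
  x ≠ y ∧ ¬ Sun A x y ∧ 17 ≤ (thr A x y).card

open Classical in
/-- The union of the components at `x`. -/
noncomputable def Z4 {v : ℕ} (A : Finset (Finset (Fin v))) (x : Fin v) :
    Finset (Fin v) :=
  (Finset.univ.filter fun y => Bad4 A x y).biUnion fun y => (Yu A x y).erase x

variable {v : ℕ} {A : Finset (Finset (Fin v))} {x : Fin v}

theorem mem_Z4 {q : Fin v} : q ∈ Z4 A x ↔ q ≠ x ∧ ∃ y, Bad4 A x y ∧ q ∈ Yu A x y := by
  simp only [Z4, Finset.mem_biUnion, Finset.mem_filter, Finset.mem_univ, true_and,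
    Finset.mem_erase]
  constructor
  · rintro ⟨y, hy, hq, hqy⟩
    exact ⟨hq, y, hy, hqy⟩
  · rintro ⟨hq, y, hy, hqy⟩
    exact ⟨y, hy, hq, hqy⟩

private theorem D6_closed (hA : IsFam [0, 1, 3] 7 A) {y : Fin v} (h : Bad4 A x y)
    {B : Finset (Fin v)} (hB : B ∈ A) (hx : x ∈ B) {p : Fin v}
    (hp : p ∈ B) (hpx : p ≠ x) (hpY : p ∈ Yu A x y) : B ⊆ Yu A x y :=
  closed4 hA h.1 h.2.1 h.2.2 hB hx hp hpx hpY

private theorem D6_card (hA : IsFam [0, 1, 3] 7 A) {y : Fin v} (h : Bad4 A x y) :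
    (Yu A x y).card = 23 := by
  have h1 : 4 ^ 2 + 1 ≤ (thr A x y).card := by
    have := h.2.2
    omega
  have h2 := card_Yu_eq (n := 4) hA h.1 h.2.1 h1
  omega

private theorem D6_eq_or (hA : IsFam [0, 1, 3] 7 A) {y y' : Fin v}
    (h : Bad4 A x y) (h' : Bad4 A x y') {p : Fin v} (hpx : p ≠ x) (hp : p ∈ Yu A x y)
    (hp' : p ∈ Yu A x y') : Yu A x y = Yu A x y' := by
  obtain ⟨X, hX, hxX, hyX, hpX⟩ := mem_Yu.1 hp'
  have h1 : y' ∈ Yu A x y := D6_closed hA h hX hxX hpX hpx hp hyX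
  have h2 : Yu A x y' ⊆ Yu A x y := by
    intro q hq
    obtain ⟨X', hX', hxX', hyX', hqX'⟩ := mem_Yu.1 hq
    exact D6_closed hA h hX' hxX' hyX' h'.1.symm h1 hqX'
  have h3 := D6_card hA h
  have h4 := D6_card hA h'
  exact (Finset.eq_of_subset_of_card_le h2 (by rw [h3, h4])).symm

theorem Yu4_out (hA : IsFam [0, 1, 3] 7 A) {z : Fin v} (hzx : z ≠ x)
    (hz : z ∉ Z4 A x) : Yu A x z ⊆ (Z4 A x)ᶜ := by
  intro q hq
  obtain ⟨X, hX, hxX, hzX, hqX⟩ := mem_Yu.1 hq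
  rw [Finset.mem_compl]
  intro hqZ
  obtain ⟨hqx, y, hy, hqy⟩ := mem_Z4.1 hqZ
  exact hz (mem_Z4.2 ⟨hzx, y, hy, D6_closed hA hy hX hxX hqX hqx hqy hzX⟩)

theorem not_bad4_of_not_mem {z : Fin v} (hz : z ∉ Z4 A x) : ¬ Bad4 A x z := by
  intro h
  obtain ⟨X, hX⟩ : (thr A x z).Nonempty := Finset.card_pos.1 (by have := h.2.2; omega)
  obtain ⟨h1, h2, h3⟩ := mem_thr.1 hX
  exact hz (mem_Z4.2 ⟨h.1.symm, z, h, mem_Yu.2 ⟨X, h1, h2, h3, h3⟩⟩)

theorem card_Z4 (hA : IsFam [0, 1, 3] 7 A) (h : ∃ y, Bad4 A x y) :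
    ∃ s, 1 ≤ s ∧ (Z4 A x).card = s * 22 := by
  classical
  obtain ⟨P, hP⟩ : ∃ P : Finset (Fin v), ∀ y, y ∈ P ↔ Bad4 A x y :=
    ⟨Finset.univ.filter fun y => Bad4 A x y, fun y => by simp⟩
  obtain ⟨Q, hQ⟩ : ∃ Q, Q = P.image fun y => (Yu A x y).erase x := ⟨_, rfl⟩
  have h1 : Z4 A x = Q.biUnion id := by
    ext q
    rw [mem_Z4, Finset.mem_biUnion]
    constructor
    · rintro ⟨hq, y, hy, hqy⟩
      refine ⟨(Yu A x y).erase x, ?_, Finset.mem_erase.2 ⟨hq, hqy⟩⟩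
      rw [hQ]
      exact Finset.mem_image_of_mem _ ((hP y).2 hy)
    · rintro ⟨T, hT, hqT⟩
      rw [hQ, Finset.mem_image] at hT
      obtain ⟨y, hy, rfl⟩ := hT
      have h2 := Finset.mem_erase.1 hqT
      exact ⟨h2.1, y, (hP y).1 hy, h2.2⟩
  have h2 : ∀ T ∈ Q, ∀ T' ∈ Q, T ≠ T' → Disjoint (id T) (id T') := by
    intro T hT T' hT' hne
    rw [hQ, Finset.mem_image] at hT hT'
    obtain ⟨y, hy, rfl⟩ := hT
    obtain ⟨y', hy', rfl⟩ := hT'
    rw [Finset.disjoint_left]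
    intro p hp hp'
    have h3 := Finset.mem_erase.1 hp
    have h4 := Finset.mem_erase.1 hp'
    exact hne (by rw [D6_eq_or hA ((hP y).1 hy) ((hP y').1 hy') h3.1 h3.2 h4.2])
  have h3 : ∀ T ∈ Q, (id T).card = 22 := by
    intro T hT
    rw [hQ, Finset.mem_image] at hT
    obtain ⟨y, hy, rfl⟩ := hT
    have hb := (hP y).1 hy
    have h4 := D6_card hA hb
    have h5 : x ∈ Yu A x y := by
      have h6 : 0 < (thr A x y).card := by
        have := hb.2.2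
        omega
      obtain ⟨X, hX⟩ := Finset.card_pos.1 h6
      obtain ⟨h7, h8, h9⟩ := mem_thr.1 hX
      exact mem_Yu.2 ⟨X, h7, h8, h9, h8⟩
    show ((Yu A x y).erase x).card = _
    rw [Finset.card_erase_of_mem h5, h4]
  refine ⟨Q.card, ?_, ?_⟩
  · obtain ⟨y, hy⟩ := h
    rw [Nat.one_le_iff_ne_zero, ← Nat.pos_iff_ne_zero, Finset.card_pos]
    refine ⟨(Yu A x y).erase x, ?_⟩
    rw [hQ]
    exact Finset.mem_image_of_mem _ ((hP y).2 hy)
  · rw [h1, Finset.card_biUnion h2, Finset.sum_congr rfl h3, Finset.sum_const, smul_eq_mul]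

end MP44257e
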