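import Pool.Agent.H.MP_44257e_co.UC.L5

/-!
# Few points

`Lin 4 d 𝓛` for the image family (`lin_of_thr`), `d = (thr A x y).card`; its lines are in
`U = W \ {x, y}` (`x, y ∈ W` if `d > 0`), `U.card ≤ 15`. `∑_{q ∈ U} dg q = 5 d` and
`∑_{q ∈ U} (dg q)^2 = ∑_{X ∈ 𝓛} ∑_{q ∈ X} dg q = d (d + 4)` (`sum_dg`). Cauchy-Schwarz:
`25 d^2 ≤ 15 d (d + 4)`, so `10 d ≤ 60`.
-/

set_option autoImplicit false

namespace MP44257e

private theorem D8_lin {v d : ℕ} {𝓛 : Finset (Finset (Fin v))} (h : Lin 4 d 𝓛)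
    {U : Finset (Fin v)} (hU : U.card ≤ 15) (hsub : ∀ X ∈ 𝓛, X ⊆ U) : d ≤ 6 := by
  have e1 : ∑ q ∈ U, dg 𝓛 q = d * 5 := by
    rw [sum_dg_set h U, Finset.sum_const_nat (m := 5), h.1]
    intro X hX
    rw [Finset.inter_eq_left.2 (hsub X hX), h.2.1 X hX]
  have e2 : ∑ q ∈ U, (dg 𝓛 q) ^ 2 = d * (d + 4) := by
    have f1 : ∀ q ∈ U, (dg 𝓛 q) ^ 2 = ∑ X ∈ 𝓛, if q ∈ X then dg 𝓛 q else 0 := by
      intro q _
      rw [← Finset.sum_filter, Finset.sum_const, smul_eq_mul, sq]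
      rfl
    rw [Finset.sum_congr rfl f1, Finset.sum_comm, Finset.sum_const_nat (m := d + 4), h.1]
    intro X hX
    rw [← sum_dg h hX, ← Finset.sum_filter]
    refine Finset.sum_congr ?_ fun _ _ => rfl
    ext q
    simp only [Finset.mem_filter]
    exact ⟨fun hq => hq.2, fun hq => ⟨hsub X hX hq, hq⟩⟩
  have e3 : (∑ q ∈ U, dg 𝓛 q) ^ 2 ≤ U.card * ∑ q ∈ U, (dg 𝓛 q) ^ 2 := by
    have g := sq_sum_le_card_mul_sum_sq (s := U) (f := fun q => (dg 𝓛 q : ℤ))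
    exact_mod_cast g
  rw [e1, e2] at e3
  by_contra hc
  push Not at hc
  have h7 : U.card * (d * (d + 4)) ≤ 15 * (d * (d + 4)) := Nat.mul_le_mul_right _ hU
  nlinarith

theorem small_R {v : ℕ} {A : Finset (Finset (Fin v))} {x y : Fin v}
    (hA : IsFam [0, 1, 3] 7 A) (hxy : x ≠ y) (h : ¬ Sun A x y) {W : Finset (Fin v)}
    (hW : W.card ≤ 17) (hYW : Yu A x y ⊆ W) : (thr A x y).card ≤ 6 := by
  by_cases hd : (thr A x y).card = 0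
  · omega
  obtain ⟨X0, hX0⟩ := Finset.card_pos.1 (Nat.pos_of_ne_zero hd)
  obtain ⟨k1, k2, k3⟩ := mem_thr.1 hX0
  have hxW : x ∈ W := hYW (mem_Yu.2 ⟨X0, k1, k2, k3, k2⟩)
  have hyW : y ∈ W := hYW (mem_Yu.2 ⟨X0, k1, k2, k3, k3⟩)
  have hl := lin_of_thr (n := 4) hA hxy h
  refine D8_lin hl (U := (W.erase x).erase y) ?_ ?_
  · rw [Finset.card_erase_of_mem (Finset.mem_erase.2 ⟨hxy.symm, hyW⟩),
      Finset.card_erase_of_mem hxW]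
    omega
  · intro Z hZ q hq
    obtain ⟨X, hX, rfl⟩ := Finset.mem_image.1 hZ
    obtain ⟨m1, m2, m3⟩ := mem_thr.1 hX
    have q1 := Finset.mem_erase.1 hq
    have q2 := Finset.mem_erase.1 q1.2
    exact Finset.mem_erase.2 ⟨q1.1, Finset.mem_erase.2
      ⟨q2.1, hYW (mem_Yu.2 ⟨X, m1, m2, m3, q2.2⟩)⟩⟩

end MP44257e
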