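import Pool.Agent.H.MP_44257e_co.UB.P3
import Pool.Agent.H.MP_44257e_co.UD.D6
import Pool.Agent.H.MP_44257e_co.UD.D8

/-!
# The sum of the degrees of the pairs at a point, `k = 7`, `79 ≤ v`

Compare `UB/P2.lean`, `UB/P3.lean`. For `v ≥ 84` this is `point_sum` (`n = 4`). Let
`79 ≤ v ≤ 83`. If no `y` is bad (`Bad4`): not `Sun` gives degree at most 16, `64 < v - 3`; `Sun`
gives `degree * 4 ≤ v - 3` (`sun_le`, `W = univ`); sum up. If some `y` is bad: the sum is strictly
smaller: `(Z4 A x).card = 22 s`, `x ∉ Z4`, so `s ≤ 3`. Points of `Z4`: degree at most 21 (`thr_le`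
or `sun_le` with `W = univ`). Other points: not bad, so at most 16, or `Sun` and
`degree * 4 ≤ v - 22 s - 3` (`sun_le`, `W = (Z4 A x)ᶜ`), at most 14. So for `s = 1, 2`:
`(22 s * 21 + (v - 1 - 22 s) * 16) * 4 < (v - 1)(v - 3)`. For `s = 3` the complement of `Z4` has
`v - 66 ≤ 17` points, `small_R` and `sun_le` give degree at most 6 outside:
`(66 * 21 + (v - 67) * 6) * 4 < (v - 1)(v - 3)`. (`interval_cases v`.)
-/

set_option autoImplicit false

namespace MP44257e

variable {v : ℕ} {A : Finset (Finset (Fin v))} {x : Fin v}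

/-- the summation over the points different from `x` -/
private theorem D9_sum (h : ∀ y, y ≠ x → (thr A x y).card * 4 ≤ v - 3 ∧
      (¬ Sun A x y → (thr A x y).card * 4 < v - 3)) :
    (∑ y ∈ Finset.univ.erase x, (thr A x y).card) * 4 ≤ (v - 1) * (v - 3) ∧
    ((∑ y ∈ Finset.univ.erase x, (thr A x y).card) * 4 = (v - 1) * (v - 3) →
      ∀ y, y ≠ x → Sun A x y ∧ (thr A x y).card * 4 = v - 3) := by
  have hc : (Finset.univ.erase x).card = v - 1 := by
    rw [Finset.card_erase_of_mem (Finset.mem_univ x), Finset.card_univ, Fintype.card_fin]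
  have hs : ∑ y ∈ Finset.univ.erase x, (v - 3) = (v - 1) * (v - 3) := by
    rw [Finset.sum_const, hc, smul_eq_mul]
  have hle : ∀ y ∈ Finset.univ.erase x, (thr A x y).card * 4 ≤ v - 3 := fun y hy =>
    (h y (Finset.ne_of_mem_erase hy)).1
  rw [Finset.sum_mul, ← hs]
  refine ⟨Finset.sum_le_sum hle, ?_⟩
  intro he y hy
  have h1 := (Finset.sum_eq_sum_iff_of_le hle).1 he y
    (Finset.mem_erase.2 ⟨hy, Finset.mem_univ y⟩)
  refine ⟨?_, h1⟩
  by_contra hn
  exact absurd h1 ((h y hy).2 hn).ne

/-- the case of a bad pair -/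
private theorem D9_bad (hA : IsFam [0, 1, 3] 7 A) (hv : 79 ≤ v) (hv' : v ≤ 83)
    (h : ∃ y, Bad4 A x y) :
    (∑ y ∈ Finset.univ.erase x, (thr A x y).card) * 4 < (v - 1) * (v - 3) := by
  classical
  have hA' : IsFam [0, 1, 3] (4 + 3) A := hA
  obtain ⟨s, hs1, hs⟩ := card_Z4 hA h
  have hsub : Z4 A x ⊆ Finset.univ.erase x := fun q hq =>
    Finset.mem_erase.2 ⟨(mem_Z4.1 hq).1, Finset.mem_univ _⟩
  have hvx : (Finset.univ.erase x : Finset (Fin v)).card = v - 1 := by
    rw [Finset.card_erase_of_mem (Finset.mem_univ _), Finset.card_univ, Fintype.card_fin]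
  have hm1 : s * 22 ≤ v - 1 := by
    rw [← hvx, ← hs]
    exact Finset.card_le_card hsub
  have hs3 : s ≤ 3 := by omega
  have hWc : ((Z4 A x)ᶜ).card = v - s * 22 := by
    rw [Finset.card_compl, Fintype.card_fin, hs]
  have hW3 : 3 ≤ ((Z4 A x)ᶜ).card := by
    rw [hWc]
    omega
  -- points of `Z4`
  have hin : ∀ y ∈ Z4 A x, (thr A x y).card ≤ 21 := by
    intro y hy
    have hyx := (mem_Z4.1 hy).1
    by_cases hS : Sun A x y
    · have h1 := sun_le hA' (Ne.symm hyx) hS (W := Finset.univ)
        (by rw [Finset.card_univ, Fintype.card_fin]; omega) (Finset.subset_univ _)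
      rw [Finset.card_univ, Fintype.card_fin] at h1
      omega
    · exact thr_le hA' (Ne.symm hyx) hS
  -- points outside
  have hout : ∀ y, y ≠ x → y ∉ Z4 A x → Sun A x y →
      (thr A x y).card * 4 ≤ v - s * 22 - 3 := by
    intro y hyx hy hS
    have h1 := sun_le hA' (Ne.symm hyx) hS hW3 (Yu4_out hA hyx hy)
    rw [hWc] at h1
    exact h1
  have hsum : ∀ c, (∀ y, y ≠ x → y ∉ Z4 A x → (thr A x y).card ≤ c) →
      ∑ y ∈ Finset.univ.erase x, (thr A x y).card ≤
        s * 22 * 21 + (v - 1 - s * 22) * c := by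
    intro c hc
    rw [← Finset.sum_sdiff hsub, add_comm]
    apply Nat.add_le_add
    · calc ∑ y ∈ Z4 A x, (thr A x y).card ≤ ∑ _y ∈ Z4 A x, 21 :=
            Finset.sum_le_sum hin
        _ = s * 22 * 21 := by
            rw [Finset.sum_const, smul_eq_mul, hs]
    · have hcd := Finset.card_sdiff_add_card_eq_card hsub
      rw [hvx, hs] at hcd
      calc ∑ y ∈ Finset.univ.erase x \ Z4 A x, (thr A x y).card
          ≤ ∑ _y ∈ Finset.univ.erase x \ Z4 A x, c := by
            apply Finset.sum_le_sum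
            intro y hy
            rw [Finset.mem_sdiff, Finset.mem_erase] at hy
            exact hc y hy.1.1 hy.2
        _ = (v - 1 - s * 22) * c := by
            rw [Finset.sum_const, smul_eq_mul]
            congr 1
            omega
  rcases Nat.lt_or_ge s 3 with hc | hc
  · have h5 := hsum 16 (by
      intro y hyx hy
      have hnb := not_bad4_of_not_mem hy
      by_cases hS : Sun A x y
      · have h1 := hout y hyx hy hS
        omega
      · by_contra hcon
        exact hnb ⟨Ne.symm hyx, hS, by omega⟩)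
    have h6 := Nat.mul_le_mul_right 4 h5
    refine lt_of_le_of_lt h6 ?_
    interval_cases s
    · interval_cases v <;> norm_num
    · interval_cases v <;> norm_num
  · have hs3' : s = 3 := by omega
    have h5 := hsum 6 (by
      intro y hyx hy
      by_cases hS : Sun A x y
      · have h1 := hout y hyx hy hS
        omega
      · exact small_R hA (Ne.symm hyx) hS (W := (Z4 A x)ᶜ) (by rw [hWc]; omega)
          (Yu4_out hA hyx hy))
    have h6 := Nat.mul_le_mul_right 4 h5
    refine lt_of_le_of_lt h6 ?_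
    rw [hs3']
    clear h6 h5 hsum hout hin hW3 hWc hm1 hvx hsub hs h hA' hA
    interval_cases v <;> norm_num

theorem point_sum4 (hA : IsFam [0, 1, 3] 7 A) (hv : 79 ≤ v) :
    (∑ y ∈ Finset.univ.erase x, (thr A x y).card) * 4 ≤ (v - 1) * (v - 3) ∧
    ((∑ y ∈ Finset.univ.erase x, (thr A x y).card) * 4 = (v - 1) * (v - 3) →
      ∀ y, y ≠ x → Sun A x y ∧ (thr A x y).card * 4 = v - 3) := by
  by_cases hv84 : 84 ≤ v
  · have h := point_sum (n := 4) (v := v) (A := A) (x := x) (le_refl 4) hA (by norm_num; omega)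
    exact h
  · by_cases hb : ∃ y, Bad4 A x y
    · have h1 := D9_bad hA hv (by omega) hb
      exact ⟨h1.le, fun he => absurd he h1.ne⟩
    · refine D9_sum fun y hy => ?_
      have hlt : ¬ Sun A x y → (thr A x y).card * 4 < v - 3 := by
        intro hs
        have h2 : (thr A x y).card ≤ 16 := by
          by_contra h3
          exact hb ⟨y, hy.symm, hs, by omega⟩
        omega
      by_cases hs : Sun A x y
      · have hA' : IsFam [0, 1, 3] (4 + 3) A := hA
        have h1 := sun_le hA' hy.symm hs (W := Finset.univ)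
          (by rw [Finset.card_univ, Fintype.card_fin]; omega) (Finset.subset_univ _)
        rw [Finset.card_univ, Fintype.card_fin] at h1
        exact ⟨h1, fun h => absurd hs h⟩
      · exact ⟨(hlt hs).le, hlt⟩

end MP44257e
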