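import Pool.Agent.H.MP_44257e_co.UD.GP
import Pool.Agent.H.MP_44257e_co.UD.D9
import Pool.Agent.H.MP_44257e_co.UG.GF

/-!
# Properties (i) and (ii) for `T = {0, 1, 3}`, `k = 7`, `v ≥ 79` and for `T = {0, 1, 2, 4}`, `k = 8`,
`v ≥ 80`
-/

set_option autoImplicit false

namespace MP44257e

theorem good_013_7 {v : ℕ} (hv : 79 ≤ v) : Good [0, 1, 3] 7 v :=
  good_of_point (n := 4) (by omega) (by omega) fun _ hA _ => point_sum4 hA hv

theorem good_0124_8 {v : ℕ} (hv : 80 ≤ v) : Good [0, 1, 2, 4] 8 v := by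
  obtain ⟨m, rfl⟩ : ∃ m, v = m + 1 := ⟨v - 1, by omega⟩
  have h1 : Good (T 2) 7 m := good_013_7 (by omega)
  exact good_T_step (s := 2) (k := 7) (m := m) (by omega) (by omega) h1

end MP44257e
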