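import Pool.Agent.H.MP_44257e_co.UB.K1
import Pool.Agent.H.MP_44257e_co.UB.K2
import Pool.Agent.H.MP_44257e_co.UB.K3
import Pool.Agent.H.MP_44257e_co.UB.B4
import Pool.Agent.H.MP_44257e_co.UB.O2
import Pool.Agent.H.MP_44257e_co.UB.Q1
import Pool.Agent.H.MP_44257e_co.UC.L5

/-!
# From the sums at the points to the properties (i) and (ii)
-/

set_option autoImplicit false

namespace MP44257e

open Finset

/-- The conclusion of the sum at the point `x`. -/
def PointOK {v : ℕ} (n : ℕ) (A : Finset (Finset (Fin v))) (x : Fin v) : Prop :=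
  (∑ y ∈ univ.erase x, (thr A x y).card) * n ≤ (v - 1) * (v - 3) ∧
    ((∑ y ∈ univ.erase x, (thr A x y).card) * n = (v - 1) * (v - 3) →
      ∀ y, y ≠ x → Sun A x y ∧ (thr A x y).card * n = v - 3)

theorem good_of_point {n v : ℕ} (hn : 3 ≤ n) (hnv : n + 3 < v)
    (H : ∀ A : Finset (Finset (Fin v)), IsFam [0, 1, 3] (n + 3) A → ∀ x, PointOK n A x) :
    Good [0, 1, 3] (n + 3) v := by
  intro A hA
  have hT := total hA
  have hconst : ∑ x : Fin v, (v - 1) * (v - 3) = v * ((v - 1) * (v - 3)) := by simp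
  have hle : ∀ x : Fin v, (∑ y ∈ univ.erase x, (thr A x y).card) * n ≤ (v - 1) * (v - 3) :=
    fun x => (H A hA x).1
  have hsum : A.card * ((n + 3) * (n + 2)) * n ≤ v * ((v - 1) * (v - 3)) := by
    rw [← hT, ← hconst, sum_mul]
    exact sum_le_sum fun x _ => hle x
  have hn0 : (0 : ℚ) < n := by exact_mod_cast (by omega : 0 < n)
  have hv1 : ((v - 1 : ℕ) : ℚ) = (v : ℚ) - 1 := by push_cast [Nat.cast_sub (by omega : 1 ≤ v)]; ring
  have hv3 : ((v - 3 : ℕ) : ℚ) = (v : ℚ) - 3 := by push_cast [Nat.cast_sub (by omega : 3 ≤ v)]; ring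
  have hb0 : bound [0, 1, 3] (n + 3) v =
      ((v : ℚ) / ((n : ℚ) + 3)) * (((v : ℚ) - 1) / ((n : ℚ) + 2)) * (((v : ℚ) - 3) / (n : ℚ)) := by
    simp only [bound, List.map_cons, List.map_nil, List.prod_cons, List.prod_nil]
    push_cast
    ring_nf
  have hbd : bound [0, 1, 3] (n + 3) v =
      ((v * ((v - 1) * (v - 3)) : ℕ) : ℚ) / (((n + 3) * (n + 2) * n : ℕ) : ℚ) := by
    rw [hb0]
    push_cast [hv1, hv3]
    field_simp
  have hpos : (0 : ℚ) < (((n + 3) * (n + 2) * n : ℕ) : ℚ) := by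
    exact_mod_cast (by positivity : 0 < (n + 3) * (n + 2) * n)
  refine ⟨?_, ?_, ?_⟩
  · rw [hbd, le_div_iff₀ hpos]
    exact_mod_cast (by linarith [hsum] : A.card * ((n + 3) * (n + 2) * n) ≤
      v * ((v - 1) * (v - 3)))
  · intro heq
    rw [hbd, eq_div_iff hpos.ne'] at heq
    have heq' : A.card * ((n + 3) * (n + 2) * n) = v * ((v - 1) * (v - 3)) := by
      exact_mod_cast heq
    have h1 : ∑ x : Fin v, (∑ y ∈ univ.erase x, (thr A x y).card) * n =
        ∑ x : Fin v, (v - 1) * (v - 3) := by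
      rw [hconst, ← sum_mul, hT, ← heq']
      ring
    have h2 := (sum_eq_sum_iff_of_le fun x _ => hle x).1 h1
    obtain ⟨c, hc⟩ := des_of_sun (by omega) (by omega) hA fun x y hxy =>
      (H A hA x).2 (h2 x (mem_univ x)) y hxy.symm
    exact pmd_of_des (by omega) hnv hA hc
  · rintro ⟨M, hM, hH⟩
    obtain ⟨c, hc⟩ := des_of_pmd hM hH
    have h1 : A.card * ((n + 3) * (n + 2)) * n = v * ((v - 1) * (v - 3)) := by
      rw [← hT, ← hconst, sum_mul]
      refine sum_congr rfl fun x _ => ?_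
      rw [sum_mul, sum_congr rfl fun y hy =>
        des_thr (by omega) (by omega) hA hc (ne_of_mem_erase hy).symm]
      simp
    rw [hbd, eq_div_iff hpos.ne']
    exact_mod_cast (by linarith [h1] : A.card * ((n + 3) * (n + 2) * n) =
      v * ((v - 1) * (v - 3)))

/-- If every pair at `x` has degree at most `(v - 3) / n`, strictly if it is not a sunflower
pair, then `PointOK`. -/
theorem pointOK_of_pairs {n v : ℕ} {A : Finset (Finset (Fin v))} {x : Fin v}
    (h : ∀ y, y ≠ x → (thr A x y).card * n ≤ v - 3 ∧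
      (¬ Sun A x y → (thr A x y).card * n < v - 3)) : PointOK n A x := by
  have hconst : ∑ _y ∈ univ.erase x, (v - 3) = (v - 1) * (v - 3) := by
    simp
  refine ⟨?_, fun heq y hy => ?_⟩
  · rw [sum_mul, ← hconst]
    exact sum_le_sum fun y hy => (h y (ne_of_mem_erase hy)).1
  · rw [sum_mul, ← hconst] at heq
    have h2 := (sum_eq_sum_iff_of_le fun y hy => (h y (ne_of_mem_erase hy)).1).1 heq y
      (mem_erase.2 ⟨hy, mem_univ y⟩)
    refine ⟨?_, h2⟩
    by_contra hs
    exact absurd h2 ((h y hy).2 hs).ne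

/-- Properties (i) and (ii) for `T = {0, 1, 3}`, `k = 9`, `v ≥ 244`. -/
theorem good_013_9 {v : ℕ} (hv : 244 ≤ v) : Good [0, 1, 3] 9 v := by
  refine good_of_point (n := 6) (by omega) (by omega) fun A hA x => pointOK_of_pairs fun y hy => ?_
  have h1 : ¬ Sun A x y → (thr A x y).card * 6 < v - 3 := fun hs => by
    have := thr_le_40 hA hy.symm hs
    omega
  refine ⟨?_, h1⟩
  by_cases hs : Sun A x y
  · have := sun_le (W := univ) hA hy.symm hs (by simp; omega) (subset_univ _)
    simpa using this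
  · exact (h1 hs).le

end MP44257e
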